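import Pool.Agent.helper18.KU.Spec

set_option autoImplicit false

namespace Pool.Agent.KU

open Finset

noncomputable section

theorem FNS_ind {V : Type} [DecidableEq V] (w : V → V → ℕ) (C T : Finset V) (hT : T ⊆ C) :
    ∑ u ∈ T, ∑ v ∈ T, w u v = ∑ u ∈ C, ∑ v ∈ C, if u ∈ T ∧ v ∈ T then w u v else 0 := by
  have e : ∀ u ∈ C, (∑ v ∈ C, if u ∈ T ∧ v ∈ T then w u v else 0) =
      if u ∈ T then ∑ v ∈ T, w u v else 0 := by
    intro u _
    by_cases hu : u ∈ T
    · simp only [hu, true_and, if_true]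
      rw [Finset.sum_ite_mem, Finset.inter_eq_right.2 hT]
    · simp [hu]
  rw [Finset.sum_congr rfl e, Finset.sum_ite_mem, Finset.inter_eq_right.2 hT]

theorem FNS_sup (hEIN : EIN_stmt) {V : Type} [DecidableEq V] (w : V → V → ℕ) (hw : Sy w) (A B : Finset V) :
    E w A + E w B ≤ E w (A ∪ B) + E w (A ∩ B) := by
  obtain ⟨h1, -⟩ := hEIN V w hw
  have hA := h1 A
  have hB := h1 B
  have hU := h1 (A ∪ B)
  have hI := h1 (A ∩ B)
  rw [FNS_ind w (A ∪ B) A Finset.subset_union_left] at hA
  rw [FNS_ind w (A ∪ B) B Finset.subset_union_right] at hB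
  rw [FNS_ind w (A ∪ B) (A ∪ B) (Finset.Subset.refl _)] at hU
  rw [FNS_ind w (A ∪ B) (A ∩ B) (Finset.inter_subset_left.trans Finset.subset_union_left)] at hI
  have key : 2 * E w A + 2 * E w B ≤ 2 * E w (A ∪ B) + 2 * E w (A ∩ B) := by
    rw [hA, hB, hU, hI, ← Finset.sum_add_distrib, ← Finset.sum_add_distrib]
    apply Finset.sum_le_sum
    intro u hu
    rw [← Finset.sum_add_distrib, ← Finset.sum_add_distrib]
    apply Finset.sum_le_sum
    intro v hv
    simp only [hu, hv, Finset.mem_inter, and_self, if_true]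
    by_cases a1 : u ∈ A <;> by_cases a2 : v ∈ A <;> by_cases a3 : u ∈ B <;> by_cases a4 : v ∈ B <;>
      simp [a1, a2, a3, a4]
  omega

theorem FNS_sy {V : Type} [DecidableEq V] (w : V → V → ℕ) (hw : Sy w) (a b : V) (hab : a ≠ b) :
    Sy (addE w a b) := by
  constructor
  · intro u v
    unfold addE
    rw [hw.symm u v]
    congr 1
    apply if_congr _ rfl rfl
    tauto
  · intro v
    unfold addE
    rw [hw.loop v, if_neg]
    rintro (⟨h1, h2⟩ | ⟨h1, h2⟩)
    · exact hab (h1.symm.trans h2)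
    · exact hab (h2.symm.trans h1)

theorem FNS_one {V : Type} [DecidableEq V] (T : Finset V) (a b : V) :
    (∑ u ∈ T, ∑ v ∈ T, if u = a ∧ v = b then 1 else 0) = if a ∈ T ∧ b ∈ T then 1 else 0 := by
  by_cases ha : a ∈ T
  · rw [Finset.sum_eq_single a]
    · by_cases hb : b ∈ T
      · rw [Finset.sum_eq_single b]
        · simp [ha, hb]
        · intro v _ hv; simp [hv]
        · intro h; exact absurd hb h
      · rw [Finset.sum_eq_zero]
        · simp [hb]
        · intro v hv
          rw [if_neg]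
          rintro ⟨_, rfl⟩
          exact hb hv
    · intro u _ hu
      apply Finset.sum_eq_zero
      intro v _
      simp [hu]
    · intro h; exact absurd ha h
  · rw [Finset.sum_eq_zero]
    · simp [ha]
    · intro u hu
      apply Finset.sum_eq_zero
      intro v _
      rw [if_neg]
      rintro ⟨rfl, _⟩
      exact ha hu

theorem FNS_E (hEIN : EIN_stmt) {V : Type} [DecidableEq V] (w : V → V → ℕ) (hw : Sy w) (T : Finset V) (a b : V)
    (hab : a ≠ b) : E (addE w a b) T = E w T + if a ∈ T ∧ b ∈ T then 1 else 0 := by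
  have h1 := (hEIN V w hw).1 T
  have h2 := (hEIN V (addE w a b) (FNS_sy w hw a b hab)).1 T
  have h3 : ∑ u ∈ T, ∑ v ∈ T, addE w a b u v = (∑ u ∈ T, ∑ v ∈ T, w u v) +
      ((∑ u ∈ T, ∑ v ∈ T, if u = a ∧ v = b then 1 else 0) + (∑ u ∈ T, ∑ v ∈ T, if u = b ∧ v = a then 1 else 0)) := by
    rw [← Finset.sum_add_distrib, ← Finset.sum_add_distrib]
    apply Finset.sum_congr rfl
    intro u _
    rw [← Finset.sum_add_distrib, ← Finset.sum_add_distrib]
    apply Finset.sum_congr rfl
    intro v _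
    unfold addE
    congr 1
    by_cases c1 : u = a ∧ v = b
    · have c2 : ¬ (u = b ∧ v = a) := fun e => hab (c1.1.symm.trans e.1)
      simp [c1]
      exact fun e _ => absurd e hab
    · by_cases c2 : u = b ∧ v = a
      · simp [c2]
        exact fun e => absurd e.symm hab
      · simp [c1, c2]
  rw [h3, FNS_one, FNS_one] at h2
  by_cases c : a ∈ T ∧ b ∈ T
  · have c' : b ∈ T ∧ a ∈ T := ⟨c.2, c.1⟩
    simp only [c, c', and_self, if_true] at h2 ⊢
    omega
  · have c' : ¬ (b ∈ T ∧ a ∈ T) := fun e => c ⟨e.2, e.1⟩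
    simp only [c, c', if_false] at h2 ⊢
    omega

theorem FNS (hEIN : EIN_stmt) : FNS_stmt := by
  intro V _ w X hw
  obtain ⟨h1, h2, h3, h4, -, -, h7, -, -⟩ := hEIN V w hw
  refine ⟨?_, ?_, ?_, ?_, ?_, ?_, ?_, ?_, ?_⟩
  · simp [f, h2]
  · intro v
    simp [f, h3]
  · intro T v hv
    unfold f
    rw [h4 T v hv, Finset.card_insert_of_notMem hv, Finset.sum_insert hv]
    push_cast
    ring
  · intro A B hAB
    unfold f
    rw [h7 A B hAB, Finset.card_union_of_disjoint hAB, Finset.sum_union hAB]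
    push_cast
    ring
  · intro A B
    unfold f
    have e1 := FNS_sup hEIN w hw A B
    have e2 := Finset.card_union_add_card_inter A B
    have e3 := Finset.sum_union_inter (s₁ := A) (s₂ := B) (f := fun v => (X v : ℤ))
    have e1' : (E w A : ℤ) + E w B ≤ E w (A ∪ B) + E w (A ∩ B) := by exact_mod_cast e1
    have e2' : ((A ∪ B).card : ℤ) + (A ∩ B).card = A.card + B.card := by exact_mod_cast e2
    linarith
  · intro a b hab
    exact FNS_sy w hw a b hab
  · intro T a b hab
    exact FNS_E hEIN w hw T a b hab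
  · intro T a b hab
    unfold f
    rw [FNS_E hEIN w hw T a b hab]
    push_cast
    ring
  · intro T c
    unfold f addX
    have : ∑ v ∈ T, ((X v + if v = c then 1 else 0 : ℕ) : ℤ) = ∑ v ∈ T, (X v : ℤ) + if c ∈ T then 1 else 0 := by
      push_cast
      rw [Finset.sum_add_distrib]
      congr 1
      rw [Finset.sum_ite_eq']
    rw [this]
    ring

end

end Pool.Agent.KU
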