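import Pool.Agent.helper18.KU.Spec

set_option autoImplicit false

namespace Pool.Agent.KU

open Finset

noncomputable section

theorem LC1 (hEIN : EIN_stmt) (hFNS : FNS_stmt) : LC1_stmt := by
  intro V _ S X w hC hI h5 v hv a ha b hb hva hvb hab hdeg hblk
  obtain ⟨f1, f2, f3, f4, f5, f6, f7, f8, f9⟩ := hFNS V w X hC.sy
  have haE : a ∈ S.erase v := Finset.mem_erase.2 ⟨Ne.symm hva, ha⟩
  have hbE : b ∈ S.erase v := Finset.mem_erase.2 ⟨Ne.symm hvb, hb⟩
  have hdg : dg w S v = dg w (S.erase v) v := by
    unfold dg
    rw [← Finset.add_sum_erase S (fun u => w v u) hv, hC.sy.loop v, zero_add]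
  have hfv : f X w (S.erase v) = 1 := by
    have h := f3 (S.erase v) v (Finset.notMem_erase v S)
    rw [Finset.insert_erase hv, hC.tot, ← hdg] at h
    have : (X v : ℤ) + dg w S v = 4 := by exact_mod_cast hdeg
    linarith
  refine ⟨f6 a b hab, fun u hu => hC.root u (Finset.mem_of_mem_erase hu), ?_, ?_, ?_⟩
  · rw [f8 (S.erase v) a b hab, hfv]
    simp [haE, hbE]
  · intro T hT
    rw [f8 T a b hab]
    by_cases hne : T.Nonempty
    · have hTS : T ≠ S := by
        rintro rfl
        exact absurd (hT hv) (Finset.notMem_erase v T)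
      have h := (hI T (hT.trans (Finset.erase_subset v S)) hne hTS).1
      split_ifs <;> omega
    · rw [Finset.not_nonempty_iff_eq_empty] at hne
      subst hne
      rw [f1]
      simp
  · intro T hT h2
    have hTS' := hT.trans (Finset.erase_subset v S)
    have hv4 := hC.v T hTS' h2
    rw [f7 T a b hab]
    by_cases hc : a ∈ T ∧ b ∈ T
    · rw [if_pos hc]
      have hTS : T ≠ S := by
        rintro rfl
        exact absurd (hT hv) (Finset.notMem_erase v T)
      have hne : T.Nonempty := ⟨a, hc.1⟩
      have h := (hI T hTS' hne hTS).1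
      have hX : (T.card : ℤ) ≤ ∑ u ∈ T, (X u : ℤ) := by
        have : T.card ≤ ∑ u ∈ T, X u := by
          calc T.card = ∑ u ∈ T, 1 := by simp
            _ ≤ ∑ u ∈ T, X u := Finset.sum_le_sum (fun u hu => hC.root u (hTS' hu))
        exact_mod_cast this
      unfold f at h
      have h' : (E w T : ℤ) + T.card + 1 ≤ 3 * T.card := by linarith
      have h'' : E w T + T.card + 1 ≤ 3 * T.card := by exact_mod_cast h'
      have hcrit : T.card = 3 → E w T ≠ 5 := by
        intro h3 hE
        exact hblk (Or.inr ⟨T, ⟨hTS', h3, hE⟩, hc.1, hc.2⟩)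
      have htwo : T.card = 2 → E w T ≠ 2 := by
        intro h3 hE
        have hT' : T = {a, b} := by
          symm
          apply Finset.eq_of_subset_of_card_le
          · intro x hx
            rcases Finset.mem_insert.1 hx with rfl | hx
            · exact hc.1
            · rw [Finset.mem_singleton.1 hx]; exact hc.2
          · rw [Finset.card_pair hab, h3]
        rw [hT', (hEIN V w hC.sy).2.2.2.2.1 a b hab] at hE
        exact hblk (Or.inl hE)
      by_cases c2 : T.card = 2
      · have := htwo c2; omega
      by_cases c3 : T.card = 3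
      · have := hcrit c3; omega
      omega
    · rw [if_neg hc]
      omega

end

end Pool.Agent.KU
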