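import Pool.Agent.helper18.KU.Spec

set_option autoImplicit false

namespace Pool.Agent.KU

open Finset

noncomputable section

theorem QIS_rep (k : ZMod 3) : (((k.val : ℕ) : ℤ) : ZMod 3) = k := by
  simp

theorem QIS_half {V : Type} [DecidableEq V] (Q : Finset V) (X : V → ℕ) (w : V → V → ℕ) (b : V) (hb : b ∈ Q)
    (h1 : V → ZMod 3 → Option V) (φ1 : V → ℝ) (hs : Static Q (addX X b) w h1 φ1) :
    ∃ k1, h1 b k1 = none := by
  have h := hs.cX b hb
  have h2 : 0 < (univ.filter fun k => h1 b k = none).card := by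
    rw [h]; unfold addX; simp
  obtain ⟨k, hk⟩ := Finset.card_pos.1 h2
  exact ⟨k, (Finset.mem_filter.1 hk).2⟩

/-- the number of root slots after the redirection of one slot -/
theorem QIS_cX {V : Type} [DecidableEq V] (Q : Finset V) (X : V → ℕ) (w : V → V → ℕ) (b : V)
    (h1 : V → ZMod 3 → Option V) (φ1 : V → ℝ) (hs : Static Q (addX X b) w h1 φ1) (k1 : ZMod 3)
    (hk1 : h1 b k1 = none) (q v : V) (hv : v ∈ Q) :
    (univ.filter fun k => (if v = b ∧ k = k1 then some q else h1 v k) = none).card = X v := by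
  have h := hs.cX v hv
  by_cases hvb : v = b
  · subst hvb
    have e : (univ.filter fun k => (if v = v ∧ k = k1 then some q else h1 v k) = none) =
        (univ.filter fun k => h1 v k = none).erase k1 := by
      ext k
      simp only [Finset.mem_filter, Finset.mem_univ, true_and, Finset.mem_erase]
      by_cases hk : k = k1
      · simp [hk]
      · simp [hk]
    rw [e, Finset.card_erase_of_mem (by simp [hk1]), h]
    unfold addX; simp
  · have e : (univ.filter fun k => (if v = b ∧ k = k1 then some q else h1 v k) = none) =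
        (univ.filter fun k => h1 v k = none) := by
      ext k
      simp [hvb]
    rw [e, h]
    unfold addX; simp [hvb]

theorem QIS_cw {V : Type} [DecidableEq V] (Q : Finset V) (b : V)
    (h1 : V → ZMod 3 → Option V) (k1 : ZMod 3)
    (hk1 : h1 b k1 = none) (q u v : V) (hq : q ∉ Q) (hv : v ∈ Q) :
    (univ.filter fun k => (if u = b ∧ k = k1 then some q else h1 u k) = some v) =
      (univ.filter fun k => h1 u k = some v) := by
  ext k
  simp only [Finset.mem_filter, Finset.mem_univ, true_and]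
  by_cases hc : u = b ∧ k = k1
  · rw [if_pos hc]
    obtain ⟨rfl, rfl⟩ := hc
    constructor
    · intro h
      exact absurd (Option.some.inj h ▸ hv) hq
    · intro h
      rw [hk1] at h
      exact absurd h (by simp)
  · rw [if_neg hc]

theorem QIS_cm {V : Type} [DecidableEq V] (Q : Finset V) (b : V)
    (h1 : V → ZMod 3 → Option V) (k1 : ZMod 3) (q u v : V)
    (hm : ∀ k, h1 u k ≠ some v) :
    (univ.filter fun k => (if u = b ∧ k = k1 then some q else h1 u k) = some v).card =
      if u = b ∧ v = q then 1 else 0 := by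
  by_cases hub : u = b
  · subst hub
    by_cases hvq : v = q
    · subst hvq
      have e : (univ.filter fun k => (if u = u ∧ k = k1 then some v else h1 u k) = some v) = {k1} := by
        ext k
        simp only [Finset.mem_filter, Finset.mem_univ, true_and, Finset.mem_singleton]
        by_cases hk : k = k1
        · simp [hk]
        · simp only [hk, if_false, iff_false]
          exact hm k
      rw [e]; simp
    · have e : (univ.filter fun k => (if u = u ∧ k = k1 then some q else h1 u k) = some v) = ∅ := by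
        apply Finset.filter_eq_empty_iff.2
        intro k _ h
        by_cases hk : k = k1
        · simp only [hk, and_self, if_true] at h
          exact hvq (Option.some.inj h).symm
        · simp only [hk, and_false, if_false] at h
          exact hm k h
      rw [e]; simp [hvq]
  · have e : (univ.filter fun k => (if u = b ∧ k = k1 then some q else h1 u k) = some v) = ∅ := by
      apply Finset.filter_eq_empty_iff.2
      intro k _ h
      simp only [hub, false_and, if_false] at h
      exact hm k h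
    rw [e]; simp [hub]

theorem QIS (hGEN : GEN_stmt) (hDIS : DIS_stmt) : QIS_stmt := by
  intro V _ S Q X w a b p q hw hQS ha hb hp hq hwe h1s h2s
  obtain ⟨h1, φ1, s1⟩ := h1s
  obtain ⟨h2, φ2, s2⟩ := h2s
  obtain ⟨k1, hk1⟩ := QIS_half Q X w b hb h1 φ1 s1
  obtain ⟨k2, hk2⟩ := QIS_half (S \ Q) X w p hp h2 φ2 s2
  have hpQ : p ∉ Q := (Finset.mem_sdiff.1 hp).2
  have hqQ : q ∉ Q := (Finset.mem_sdiff.1 hq).2
  have hpS : p ∈ S := (Finset.mem_sdiff.1 hp).1
  have hqS : q ∈ S := (Finset.mem_sdiff.1 hq).1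
  obtain ⟨τ, hτ1, hτ2, hτg⟩ := hGEN ((Q ×ˢ (S \ Q)).image (fun z => φ1 z.1 - φ2 z.2))
    (φ1 b + ((k1.val : ℕ) : ℝ) - φ2 p - ((k2.val : ℕ) : ℝ) + 1)
    (φ1 b + ((k1.val : ℕ) : ℝ) - φ2 p - ((k2.val : ℕ) : ℝ) + 2) (by linarith)
  have hgen : ∀ u ∈ Q, ∀ z ∈ S \ Q, ∀ n : ℤ, φ1 u - (φ2 z + τ) ≠ n := by
    intro u hu z hz n hn
    refine hτg (φ1 u - φ2 z) (Finset.mem_image.2 ⟨(u, z), Finset.mem_product.2 ⟨hu, hz⟩, rfl⟩) (-n) ?_
    push_cast
    linarith
  let h : V → ZMod 3 → Option V := fun v k => if v ∈ Q then (if v = b ∧ k = k1 then some q else h1 v k)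
    else (if v = p ∧ k = k2 then some a else h2 v k)
  let φ : V → ℝ := fun v => if v ∈ Q then φ1 v else φ2 v + τ
  have hQ : ∀ v ∈ Q, ∀ k, h v k = if v = b ∧ k = k1 then some q else h1 v k := by
    intro v hv k; simp only [h, if_pos hv]
  have hC : ∀ v, v ∉ Q → ∀ k, h v k = if v = p ∧ k = k2 then some a else h2 v k := by
    intro v hv k; simp only [h, if_neg hv]
  have φQ : ∀ v ∈ Q, φ v = φ1 v := by intro v hv; simp only [φ, if_pos hv]
  have φC : ∀ v, v ∉ Q → φ v = φ2 v + τ := by intro v hv; simp only [φ, if_neg hv]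
  refine ⟨h, φ, ?_, ?_, ?_, ?_, ?_⟩
  · intro v hv k u hu
    by_cases hvQ : v ∈ Q
    · rw [hQ v hvQ] at hu
      by_cases hc : v = b ∧ k = k1
      · rw [if_pos hc] at hu
        have : q = u := Option.some.inj hu
        subst this
        exact ⟨hqS, fun e => hqQ (e ▸ hvQ)⟩
      · rw [if_neg hc] at hu
        obtain ⟨e1, e2⟩ := s1.mem v hvQ k u hu
        exact ⟨hQS e1, e2⟩
    · rw [hC v hvQ] at hu
      by_cases hc : v = p ∧ k = k2
      · rw [if_pos hc] at hu
        have : a = u := Option.some.inj hu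
        subst this
        exact ⟨hQS ha, fun e => hvQ (e ▸ ha)⟩
      · rw [if_neg hc] at hu
        obtain ⟨e1, e2⟩ := s2.mem v (Finset.mem_sdiff.2 ⟨hv, hvQ⟩) k u hu
        exact ⟨(Finset.mem_sdiff.1 e1).1, e2⟩
  · intro v hv
    by_cases hvQ : v ∈ Q
    · simp only [hQ v hvQ]
      exact QIS_cX Q X w b h1 φ1 s1 k1 hk1 q v hvQ
    · simp only [hC v hvQ]
      exact QIS_cX (S \ Q) X w p h2 φ2 s2 k2 hk2 a v (Finset.mem_sdiff.2 ⟨hv, hvQ⟩)
  · have mixed : ∀ u ∈ Q, ∀ v ∈ S \ Q, (univ.filter fun k => h u k = some v).card +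
        (univ.filter fun k => h v k = some u).card = w u v := by
      intro u hu v hv
      have hvQ := (Finset.mem_sdiff.1 hv).2
      simp only [hQ u hu, hC v hvQ]
      rw [QIS_cm Q b h1 k1 q u v (fun k hk => hvQ (s1.mem u hu k v hk).1),
        QIS_cm Q p h2 k2 a v u (fun k hk => (Finset.mem_sdiff.1 (s2.mem v hv k u hk).1).2 hu),
        hwe u hu v hv, add_comm]
      congr 1
      simp only [and_comm]
    intro u hu v hv huv
    by_cases huQ : u ∈ Q
    · by_cases hvQ : v ∈ Q
      · simp only [hQ u huQ, hQ v hvQ]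
        rw [QIS_cw Q b h1 k1 hk1 q u v hqQ hvQ, QIS_cw Q b h1 k1 hk1 q v u hqQ huQ]
        exact s1.cw u huQ v hvQ huv
      · exact mixed u huQ v (Finset.mem_sdiff.2 ⟨hv, hvQ⟩)
    · by_cases hvQ : v ∈ Q
      · rw [add_comm, mixed v hvQ u (Finset.mem_sdiff.2 ⟨hu, huQ⟩)]
        exact hw.symm v u
      · simp only [hC u huQ, hC v hvQ]
        have haC : a ∉ S \ Q := fun e => (Finset.mem_sdiff.1 e).2 ha
        have huC : u ∈ S \ Q := Finset.mem_sdiff.2 ⟨hu, huQ⟩
        have hvC : v ∈ S \ Q := Finset.mem_sdiff.2 ⟨hv, hvQ⟩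
        rw [QIS_cw (S \ Q) p h2 k2 hk2 a u v haC hvC, QIS_cw (S \ Q) p h2 k2 hk2 a v u haC huC]
        exact s2.cw u huC v hvC huv
  · intro u hu v hv huv n
    by_cases huQ : u ∈ Q
    · by_cases hvQ : v ∈ Q
      · rw [φQ u huQ, φQ v hvQ]
        exact s1.dist u huQ v hvQ huv n
      · rw [φQ u huQ, φC v hvQ]
        exact hgen u huQ v (Finset.mem_sdiff.2 ⟨hv, hvQ⟩) n
    · by_cases hvQ : v ∈ Q
      · rw [φC u huQ, φQ v hvQ]
        intro e
        refine hgen v hvQ u (Finset.mem_sdiff.2 ⟨hu, huQ⟩) (-n) ?_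
        push_cast
        linarith
      · rw [φC u huQ, φC v hvQ]
        intro e
        refine s2.dist u (Finset.mem_sdiff.2 ⟨hu, huQ⟩) v (Finset.mem_sdiff.2 ⟨hv, hvQ⟩) huv n ?_
        linarith
  · intro t
    obtain ⟨ρ1, hρ1⟩ := s1.ac t
    obtain ⟨ρ2, hρ2⟩ := s2.ac (t - τ)
    have hd := hDIS (φ2 p + τ) (φ1 b) ((k2.val : ℕ) : ℤ) ((k1.val : ℕ) : ℤ) 0 (by push_cast; linarith)
      (by push_cast; linarith) t
    rw [QIS_rep, QIS_rep] at hd
    have ptQ : ∀ v ∈ Q, ptr h φ t v = if v = b ∧ ((⌊t - φ1 v⌋ : ℤ) : ZMod 3) = k1 then some q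
        else ptr h1 φ1 t v := by
      intro v hv
      unfold ptr
      rw [hQ v hv, φQ v hv]
    have ptC : ∀ v, v ∉ Q → ptr h φ t v = if v = p ∧ ((⌊t - (φ2 v + τ)⌋ : ℤ) : ZMod 3) = k2 then some a
        else ptr h2 φ2 (t - τ) v := by
      intro v hv
      have e : t - τ - φ2 v = t - (φ2 v + τ) := by ring
      unfold ptr
      rw [hC v hv, φC v hv, e]
    by_cases hact : ((⌊t - φ1 b⌋ : ℤ) : ZMod 3) = k1
    · have hna : ((⌊t - (φ2 p + τ)⌋ : ℤ) : ZMod 3) ≠ k2 := fun e => hd ⟨e, hact⟩
      refine ⟨fun v => if v ∈ Q then ρ1 v + 1 + (S \ Q).sup ρ2 else ρ2 v, ?_⟩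
      intro v hv u hu
      by_cases hvQ : v ∈ Q
      · rw [ptQ v hvQ] at hu
        by_cases hc : v = b ∧ ((⌊t - φ1 v⌋ : ℤ) : ZMod 3) = k1
        · rw [if_pos hc] at hu
          have : q = u := Option.some.inj hu
          subst this
          simp only [hqQ, hvQ, if_false, if_true]
          have := Finset.le_sup (f := ρ2) hq
          omega
        · rw [if_neg hc] at hu
          have e1 := (s1.mem v hvQ _ u hu).1
          have e2 := hρ1 v hvQ u hu
          simp only [e1, hvQ, if_true]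
          omega
      · have hvC : v ∈ S \ Q := Finset.mem_sdiff.2 ⟨hv, hvQ⟩
        rw [ptC v hvQ] at hu
        have hc : ¬ (v = p ∧ ((⌊t - (φ2 v + τ)⌋ : ℤ) : ZMod 3) = k2) := by
          rintro ⟨rfl, e⟩
          exact hna e
        rw [if_neg hc] at hu
        have e1 := (Finset.mem_sdiff.1 (s2.mem v hvC _ u hu).1).2
        have e2 := hρ2 v hvC u hu
        simp only [e1, hvQ, if_false]
        exact e2
    · refine ⟨fun v => if v ∈ Q then ρ1 v else ρ2 v + 1 + Q.sup ρ1, ?_⟩
      intro v hv u hu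
      by_cases hvQ : v ∈ Q
      · rw [ptQ v hvQ] at hu
        have hc : ¬ (v = b ∧ ((⌊t - φ1 v⌋ : ℤ) : ZMod 3) = k1) := by
          rintro ⟨rfl, e⟩
          exact hact e
        rw [if_neg hc] at hu
        have e1 := (s1.mem v hvQ _ u hu).1
        have e2 := hρ1 v hvQ u hu
        simp only [e1, hvQ, if_true]
        exact e2
      · have hvC : v ∈ S \ Q := Finset.mem_sdiff.2 ⟨hv, hvQ⟩
        rw [ptC v hvQ] at hu
        by_cases hc : v = p ∧ ((⌊t - (φ2 v + τ)⌋ : ℤ) : ZMod 3) = k2
        · rw [if_pos hc] at hu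
          have : a = u := Option.some.inj hu
          subst this
          simp only [ha, hvQ, if_true, if_false]
          have := Finset.le_sup (f := ρ1) ha
          omega
        · rw [if_neg hc] at hu
          have e1 := (Finset.mem_sdiff.1 (s2.mem v hvC _ u hu).1).2
          have e2 := hρ2 v hvC u hu
          simp only [e1, hvQ, if_false]
          omega

end

end Pool.Agent.KU
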