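import Pool.Agent.helper18.KU.Spec

set_option autoImplicit false

namespace Pool.Agent.KU

open Finset

noncomputable section

/-- a multiset of options with given multiplicities -/
theorem SPS_ms {V : Type} [DecidableEq V] (T : Finset V) (x : ℕ) (g : V → ℕ) :
    ∃ A : Multiset (Option V), Multiset.card A = x + ∑ u ∈ T, g u ∧ A.count none = x ∧
      (∀ u ∈ T, A.count (some u) = g u) ∧ (∀ u, some u ∈ A → u ∈ T) := by
  refine ⟨Multiset.replicate x none + ∑ u ∈ T, Multiset.replicate (g u) (some u), ?_, ?_, ?_, ?_⟩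
  · rw [Multiset.card_add, Multiset.card_replicate, Multiset.card_sum]
    simp
  · rw [Multiset.count_add, Multiset.count_replicate, if_pos rfl, Multiset.count_sum']
    have : ∑ u ∈ T, Multiset.count (none : Option V) (Multiset.replicate (g u) (some u)) = 0 := by
      apply Finset.sum_eq_zero
      intro u _
      rw [Multiset.count_replicate, if_neg (by simp)]
    rw [this, add_zero]
  · intro u hu
    rw [Multiset.count_add, Multiset.count_replicate, if_neg (by simp), Multiset.count_sum', zero_add,
      Finset.sum_eq_single u]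
    · rw [Multiset.count_replicate, if_pos rfl]
    · intro b _ hb
      rw [Multiset.count_replicate, if_neg (fun e => hb (Option.some.inj e))]
    · intro h; exact absurd hu h
  · intro u hu
    rw [Multiset.mem_add] at hu
    rcases hu with hu | hu
    · exact absurd (Multiset.eq_of_mem_replicate hu) (by simp)
    · rw [Multiset.mem_sum] at hu
      obtain ⟨b, hb, hub⟩ := hu
      have := Multiset.eq_of_mem_replicate hub
      rw [Option.some.inj this]
      exact hb

/-- the redirected root slots of one vertex -/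
theorem SPS_red (hCHS : CHS_stmt) {V : Type} [DecidableEq V] (T : Finset V) (x : ℕ) (g : V → ℕ)
    (K : Finset (ZMod 3)) (hK : K.card = x + ∑ u ∈ T, g u) :
    ∃ r : ZMod 3 → Option V, (K.filter fun k => r k = none).card = x ∧
      (∀ u ∈ T, (K.filter fun k => r k = some u).card = g u) ∧ (∀ k ∈ K, ∀ u, r k = some u → u ∈ T) := by
  obtain ⟨A, h1, h2, h3, h4⟩ := SPS_ms T x g
  obtain ⟨r, hr⟩ := hCHS (ZMod 3) (Option V) K A (by rw [h1, hK])
  have hc : ∀ o : Option V, (K.filter fun k => r k = o).card = A.count o := by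
    intro o
    rw [← hr, Multiset.count_map, Finset.card_def, Finset.filter_val]
    congr 1
    apply Multiset.filter_congr
    intro k _
    exact eq_comm
  refine ⟨r, by rw [hc, h2], fun u hu => by rw [hc, h3 u hu], fun k hk u hu => h4 u ?_⟩
  rw [← hr, ← hu]
  exact Multiset.mem_map_of_mem r hk

theorem SPS (hGEN : GEN_stmt) (hEXS : EXS_stmt) (hCHS : CHS_stmt) : SPS_stmt := by
  intro V _ S T X w hw hTS h1s h2s
  obtain ⟨h1, φ1, s1⟩ := h1s
  obtain ⟨h2, φ2', s2'⟩ := h2s
  obtain ⟨τ, -, -, hτg⟩ := hGEN ((T ×ˢ (S \ T)).image (fun z => φ1 z.1 - φ2' z.2)) 0 1 (by norm_num)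
  have s2 := (hEXS V (S \ T) (fun v => X v + dg w T v) (fun v => X v + dg w T v) w w (fun _ _ => rfl)
    (fun _ _ _ _ _ => rfl)).2 h2 φ2' τ s2'
  set φ2 : V → ℝ := fun v => φ2' v + τ with hφ2
  have hgen : ∀ u ∈ T, ∀ z ∈ S \ T, ∀ n : ℤ, φ1 u - φ2 z ≠ n := by
    intro u hu z hz n hn
    refine hτg (φ1 u - φ2' z) (Finset.mem_image.2 ⟨(u, z), Finset.mem_product.2 ⟨hu, hz⟩, rfl⟩) (-n) ?_
    simp only [hφ2] at hn
    push_cast
    linarith
  have hred : ∀ v : V, ∃ r : ZMod 3 → Option V, v ∈ S \ T →
      (((univ.filter fun k => h2 v k = none).filter fun k => r k = none).card = X v ∧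
      (∀ u ∈ T, ((univ.filter fun k => h2 v k = none).filter fun k => r k = some u).card = w v u) ∧
      (∀ k, h2 v k = none → ∀ u, r k = some u → u ∈ T)) := by
    intro v
    by_cases hv : v ∈ S \ T
    · obtain ⟨r, e1, e2, e3⟩ := SPS_red hCHS T (X v) (fun u => w v u) (univ.filter fun k => h2 v k = none)
        (by rw [s2.cX v hv]; rfl)
      exact ⟨r, fun _ => ⟨e1, e2, fun k hk u hu => e3 k (by simp [hk]) u hu⟩⟩
    · exact ⟨fun _ => none, fun h => absurd h hv⟩
  choose r hr using hred
  let h : V → ZMod 3 → Option V := fun v k => if v ∈ T then h1 v k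
    else (if h2 v k = none then r v k else h2 v k)
  let φ : V → ℝ := fun v => if v ∈ T then φ1 v else φ2 v
  have hQ : ∀ v ∈ T, ∀ k, h v k = h1 v k := by
    intro v hv k; simp only [h, if_pos hv]
  have hC : ∀ v, v ∉ T → ∀ k, h v k = if h2 v k = none then r v k else h2 v k := by
    intro v hv k; simp only [h, if_neg hv]
  have φQ : ∀ v ∈ T, φ v = φ1 v := by intro v hv; simp only [φ, if_pos hv]
  have φC : ∀ v, v ∉ T → φ v = φ2 v := by intro v hv; simp only [φ, if_neg hv]
  refine ⟨h, φ, ?_, ?_, ?_, ?_, ?_⟩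
  · intro v hv k u hu
    by_cases hvQ : v ∈ T
    · rw [hQ v hvQ] at hu
      obtain ⟨e1, e2⟩ := s1.mem v hvQ k u hu
      exact ⟨hTS e1, e2⟩
    · rw [hC v hvQ] at hu
      have hvC : v ∈ S \ T := Finset.mem_sdiff.2 ⟨hv, hvQ⟩
      by_cases hc : h2 v k = none
      · rw [if_pos hc] at hu
        have huT := (hr v hvC).2.2 k hc u hu
        exact ⟨hTS huT, fun e => hvQ (e ▸ huT)⟩
      · rw [if_neg hc] at hu
        obtain ⟨e1, e2⟩ := s2.mem v hvC k u hu
        exact ⟨(Finset.mem_sdiff.1 e1).1, e2⟩
  · intro v hv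
    by_cases hvQ : v ∈ T
    · simp only [hQ v hvQ]
      exact s1.cX v hvQ
    · have hvC : v ∈ S \ T := Finset.mem_sdiff.2 ⟨hv, hvQ⟩
      simp only [hC v hvQ]
      rw [← (hr v hvC).1]
      congr 1
      ext k
      simp only [Finset.mem_filter, Finset.mem_univ, true_and]
      by_cases hc : h2 v k = none
      · simp [hc]
      · simp [hc]
  · have mixed : ∀ u ∈ T, ∀ v ∈ S \ T, (univ.filter fun k => h u k = some v).card +
        (univ.filter fun k => h v k = some u).card = w v u := by
      intro u hu v hv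
      have hvT := (Finset.mem_sdiff.1 hv).2
      simp only [hQ u hu, hC v hvT]
      have e1 : (univ.filter fun k => h1 u k = some v) = ∅ := by
        apply Finset.filter_eq_empty_iff.2
        intro k _ hk
        exact hvT (s1.mem u hu k v hk).1
      have e2 : (univ.filter fun k => (if h2 v k = none then r v k else h2 v k) = some u) =
          (univ.filter fun k => h2 v k = none).filter fun k => r v k = some u := by
        ext k
        simp only [Finset.mem_filter, Finset.mem_univ, true_and]
        by_cases hc : h2 v k = none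
        · simp [hc]
        · simp only [hc, if_false, false_and, iff_false]
          intro e
          exact (Finset.mem_sdiff.1 (s2.mem v hv k u e).1).2 hu
      rw [e1, e2, Finset.card_empty, zero_add]
      exact (hr v hv).2.1 u hu
    have same : ∀ u ∈ S \ T, ∀ v ∈ S \ T, (univ.filter fun k => h u k = some v) =
        (univ.filter fun k => h2 u k = some v) := by
      intro u hu v hv
      ext k
      simp only [Finset.mem_filter, Finset.mem_univ, true_and, hC u (Finset.mem_sdiff.1 hu).2]
      by_cases hc : h2 u k = none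
      · simp only [hc, if_true]
        constructor
        · intro e
          exact absurd ((hr u hu).2.2 k hc v e) (Finset.mem_sdiff.1 hv).2
        · intro e
          exact absurd e (by simp)
      · simp only [hc, if_false]
    intro u hu v hv huv
    by_cases huQ : u ∈ T
    · by_cases hvQ : v ∈ T
      · simp only [hQ u huQ, hQ v hvQ]
        exact s1.cw u huQ v hvQ huv
      · rw [mixed u huQ v (Finset.mem_sdiff.2 ⟨hv, hvQ⟩)]
        exact hw.symm v u
    · by_cases hvQ : v ∈ T
      · rw [add_comm, mixed v hvQ u (Finset.mem_sdiff.2 ⟨hu, huQ⟩)]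
      · have huC : u ∈ S \ T := Finset.mem_sdiff.2 ⟨hu, huQ⟩
        have hvC : v ∈ S \ T := Finset.mem_sdiff.2 ⟨hv, hvQ⟩
        rw [same u huC v hvC, same v hvC u huC]
        exact s2.cw u huC v hvC huv
  · intro u hu v hv huv n
    by_cases huQ : u ∈ T
    · by_cases hvQ : v ∈ T
      · rw [φQ u huQ, φQ v hvQ]
        exact s1.dist u huQ v hvQ huv n
      · rw [φQ u huQ, φC v hvQ]
        exact hgen u huQ v (Finset.mem_sdiff.2 ⟨hv, hvQ⟩) n
    · by_cases hvQ : v ∈ T
      · rw [φC u huQ, φQ v hvQ]
        intro e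
        refine hgen v hvQ u (Finset.mem_sdiff.2 ⟨hu, huQ⟩) (-n) ?_
        push_cast
        linarith
      · rw [φC u huQ, φC v hvQ]
        exact s2.dist u (Finset.mem_sdiff.2 ⟨hu, huQ⟩) v (Finset.mem_sdiff.2 ⟨hv, hvQ⟩) huv n
  · intro t
    obtain ⟨ρ1, hρ1⟩ := s1.ac t
    obtain ⟨ρ2, hρ2⟩ := s2.ac t
    refine ⟨fun v => if v ∈ T then ρ1 v else ρ2 v + 1 + T.sup ρ1, ?_⟩
    intro v hv u hu
    unfold ptr at hu
    by_cases hvQ : v ∈ T
    · rw [hQ v hvQ, φQ v hvQ] at hu
      have e1 := (s1.mem v hvQ _ u hu).1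
      have e2 := hρ1 v hvQ u hu
      simp only [e1, hvQ, if_true]
      exact e2
    · have hvC : v ∈ S \ T := Finset.mem_sdiff.2 ⟨hv, hvQ⟩
      rw [hC v hvQ, φC v hvQ] at hu
      by_cases hc : h2 v ((⌊t - φ2 v⌋ : ℤ) : ZMod 3) = none
      · rw [if_pos hc] at hu
        have huT := (hr v hvC).2.2 _ hc u hu
        simp only [huT, hvQ, if_true, if_false]
        have := Finset.le_sup (f := ρ1) huT
        omega
      · rw [if_neg hc] at hu
        have e1 := (Finset.mem_sdiff.1 (s2.mem v hvC _ u hu).1).2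
        have e2 := hρ2 v hvC u hu
        simp only [e1, hvQ, if_false]
        omega

end

end Pool.Agent.KU
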